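import Pool.Agent.Lib.MP_b1a3a4_al.MVS.HO.Iface

/-!
# Project MVS, part II, module HEMI2 (10.21): the homotopical hemisphere theorem
-/

set_option linter.all false

namespace Pool.Agent.Lib.MP_b1a3a4_al.MVS.HO.H43

open Pool.Agent.Lib.MP_b1a3a4_al.MVS

theorem hemi2_aux (hScale : ScaleStatement) (hHalf : HalfStatement) (hLB : LbStatement)
    (hCurv : CurvExtStatement) (hCone : ConeStatement) (hLag : LagStatement)
    (S S' : Type) [Group S] [Group S'] (j : S →* S') (ψ : S' →* Multiplicative ℤ) (hses : SES j ψ)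
    (hS : FPres S) (hS' : FPres S') (χ : Chr S') (hpos : ∃ s, 0 < val χ (j s))
    (hsig : ∀ lam : ℝ, Sig2 (χ + lam • intChr ψ)) (t : S') (ht : ψ t = Multiplicative.ofAdd 1)
    (ht0 : val χ t = 0) : CSC (up (val (χ.res j)) 0) := by
  obtain ⟨s₀, hs₀⟩ := hpos
  have hψj : ∀ s, val (intChr ψ) (j s) = 0 := by
    intro s
    have : ψ (j s) = 1 := (hses.ex (j s)).2 ⟨s, rfl⟩
    rw [val_intChr, this]
    simp
  refine (hLag S (χ.res j) ⟨s₀, by rwa [val_res]⟩).1 ?_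
  intro E hE
  obtain ⟨ES, hES, hGS⟩ := hScale S hS E hE
  obtain ⟨Eh, hEh, hGh⟩ := hScale S' hS' (j '' ES) (hGS.fin.image j)
  obtain ⟨d, hd, hcone⟩ := hCone S S' j ψ hses χ t ht ht0 ES hGS Eh hGh.fin
  have hhalf : ∀ lam : ℝ, |lam| ≤ d + 1 → ∃ D : ℝ, HS (χ + lam • intChr ψ) Eh D := by
    intro lam _
    apply hHalf S' (χ + lam • intChr ψ) Eh hGh ⟨j s₀, ?_⟩ (hsig lam)
    rw [val_add, val_smul, hψj]
    linarith
  obtain ⟨D, hD0, hD⟩ := hLB S' Eh hGh χ (intChr ψ) ⟨j s₀, hψj s₀, hs₀⟩ (d + 1) hhalf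
  obtain ⟨M, C, hM, hC, hcurv⟩ := hCurv S' Eh hGh χ (intChr ψ) (d + 1) D (by linarith) hD0
    ⟨j s₀, hψj s₀, hs₀⟩ hD
  refine ⟨ES, d + C + (d + 1) * M, hGS.fin, ?_⟩
  intro H _ c hc
  obtain ⟨c', hc', hcc⟩ := hcone H c hc
  have hsub : up (curv χ (intChr ψ) (d + 1) M) d ⊆
      {g | d * (|val (intChr ψ) g| + 1) ≤ val χ g} := by
    intro g hg
    have hg' : d ≤ val χ g - (d + 1) * Real.sqrt (val (intChr ψ) g ^ 2 + M ^ 2) := hg
    have h1 : |val (intChr ψ) g| ≤ Real.sqrt (val (intChr ψ) g ^ 2 + M ^ 2) := by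
      apply Real.abs_le_sqrt
      nlinarith [sq_nonneg M]
    have h2 : 0 ≤ |val (intChr ψ) g| := abs_nonneg _
    show d * (|val (intChr ψ) g| + 1) ≤ val χ g
    nlinarith
  obtain ⟨f', hf'⟩ := hcurv d H c' (hc'.mono le_rfl hsub)
  refine ⟨fun s => f' (j s), ?_⟩
  intro s hs s' hs' hss
  have hs1 : d + C + (d + 1) * M ≤ val χ (j s) := hs
  have hs1' : d + C + (d + 1) * M ≤ val χ (j s') := hs'
  have hM1 : 0 ≤ (d + 1) * M := by positivity
  have hup : ∀ x, d + C + (d + 1) * M ≤ val χ (j x) → j x ∈ up (curv χ (intChr ψ) (d + 1) M) (d + C) := by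
    intro x hx
    show d + C ≤ val χ (j x) - (d + 1) * Real.sqrt (val (intChr ψ) (j x) ^ 2 + M ^ 2)
    rw [hψj]
    have : Real.sqrt ((0 : ℝ) ^ 2 + M ^ 2) = M := by
      rw [zero_pow two_ne_zero, zero_add, Real.sqrt_sq hM.le]
    rw [this]
    linarith
  have hmem : j (s⁻¹ * s') ∈ Eh := hEh ⟨_, hES hss, rfl⟩
  have e1 := hcc s s' (hES hss) hmem (by linarith) (by linarith)
  have e2 := hf' (j s) (hup s hs1) (j s') (hup s' hs1') (by
    rw [← map_inv, ← map_mul]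
    exact hmem)
  rw [← e1, e2]

theorem hemi2 (hScale : ScaleStatement) (hHalf : HalfStatement) (hLB : LbStatement)
    (hCurv : CurvExtStatement) (hCone : ConeStatement) (hLag : LagStatement) : Hemi2Statement := by
  intro S S' _ _ j ψ hses hS hS' χ hpos hsig
  obtain ⟨t, ht⟩ := hses.surj (Multiplicative.ofAdd 1)
  have hψj : ∀ s, val (intChr ψ) (j s) = 0 := by
    intro s
    have : ψ (j s) = 1 := (hses.ex (j s)).2 ⟨s, rfl⟩
    rw [val_intChr, this]
    simp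
  have hψt : val (intChr ψ) t = 1 := by
    rw [val_intChr, ht]
    simp
  have key := hemi2_aux hScale hHalf hLB hCurv hCone hLag S S' j ψ hses hS hS'
    (χ + (-(val χ t)) • intChr ψ) (by
      obtain ⟨s₀, hs₀⟩ := hpos
      refine ⟨s₀, ?_⟩
      rw [val_add, val_smul, hψj]
      linarith) (by
      intro lam
      have := hsig (-(val χ t) + lam)
      rwa [add_smul, ← add_assoc] at this) t ht (by
      rw [val_add, val_smul, hψt]
      ring)
  have e : (up (val ((χ + (-(val χ t)) • intChr ψ).res j)) 0) = up (val (χ.res j)) 0 := by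
    ext s
    show 0 ≤ val ((χ + (-(val χ t)) • intChr ψ).res j) s ↔ 0 ≤ val (χ.res j) s
    rw [val_res, val_res, val_add, val_smul, hψj, mul_zero, add_zero]
  rwa [e] at key

end Pool.Agent.Lib.MP_b1a3a4_al.MVS.HO.H43
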